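import Pool.Agent.N848.AW.Stm
import Pool.Agent.R426.QK.LA3

/-!
AW-LA3: the general law from the moments of the kernel (after `Pool/Agent/R426/QK/LA3.lean`).
-/

set_option autoImplicit false
set_option linter.unusedVariables false

open scoped Classical

namespace Pool.Agent.N279.AW.LA3

open Finset Pool.Agent.R426.QK Pool.Agent.N848.AW

section

variable {U J : Type} [Fintype U] [Fintype J]

theorem two_eq : (2 : ZMod 2) = 0 := rfl

theorem rowG_add (N : U ⊕ J → U ⊕ J → ZMod 2) (R : J → J → ZMod 2) (x y : U ⊕ J → ZMod 2)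
    (k : U ⊕ J) : rowG N R (x + y) k = rowG N R x k + rowG N R y k := by
  cases k with
  | inl u =>
    simp only [rowG, Pi.add_apply, mul_add]
    rw [Finset.sum_add_distrib]
  | inr k =>
    simp only [rowG, Pi.add_apply]
    have h1 : ∑ l, R k l * (x (Sum.inr k) + y (Sum.inr k) + (x (Sum.inr l) + y (Sum.inr l))) =
        ∑ l, R k l * (x (Sum.inr k) + x (Sum.inr l)) +
          ∑ l, R k l * (y (Sum.inr k) + y (Sum.inr l)) := by
      rw [← Finset.sum_add_distrib]
      exact Finset.sum_congr rfl fun v _ => by ring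
    have h2 : ∑ l, N (Sum.inr k) l * (x l + y l) =
        ∑ l, N (Sum.inr k) l * x l + ∑ l, N (Sum.inr k) l * y l := by
      rw [← Finset.sum_add_distrib]
      exact Finset.sum_congr rfl fun v _ => by ring
    rw [h1, h2]; ring

theorem rowG_smul (N : U ⊕ J → U ⊕ J → ZMod 2) (R : J → J → ZMod 2) (a : ZMod 2)
    (x : U ⊕ J → ZMod 2) (k : U ⊕ J) : rowG N R (a • x) k = a * rowG N R x k := by
  cases k with
  | inl u =>
    simp only [rowG, Pi.smul_apply, smul_eq_mul]
    rw [Finset.mul_sum]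
    exact Finset.sum_congr rfl fun v _ => by ring
  | inr k =>
    simp only [rowG, Pi.smul_apply, smul_eq_mul]
    rw [mul_add, Finset.mul_sum, Finset.mul_sum]
    congr 1
    · exact Finset.sum_congr rfl fun v _ => by ring
    · exact Finset.sum_congr rfl fun v _ => by ring

theorem rowG_onev {one : U → ZMod 2} {N : U ⊕ J → U ⊕ J → ZMod 2}
    (hr : ∀ k, ∑ l, N k l * onev one l = 0) (R : J → J → ZMod 2) (k : U ⊕ J) :
    rowG N R (onev one) k = 0 := by
  cases k with
  | inl u => exact hr (Sum.inl u)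
  | inr k =>
    simp only [rowG]
    rw [hr (Sum.inr k), zero_add]
    apply Finset.sum_eq_zero
    intro l _
    change R k l * ((1 : ZMod 2) + 1) = 0
    have : (1 : ZMod 2) + 1 = 0 := rfl
    rw [this, mul_zero]

/-- the elements of the kernel which are zero at `k0` -/
def Kr (N : U ⊕ J → U ⊕ J → ZMod 2) (R : J → J → ZMod 2) (k0 : J) :
    Submodule (ZMod 2) (U ⊕ J → ZMod 2) where
  carrier := {x | (∀ k, rowG N R x k = 0) ∧ x (Sum.inr k0) = 0}
  zero_mem' := by
    refine ⟨fun k => ?_, rfl⟩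
    have := rowG_smul N R 0 0 k
    simpa using this
  add_mem' := by
    rintro x y ⟨h1, h2⟩ ⟨h3, h4⟩
    refine ⟨fun k => ?_, ?_⟩
    · rw [rowG_add, h1, h3, add_zero]
    · rw [Pi.add_apply, h2, h4, add_zero]
  smul_mem' := by
    rintro a x ⟨h1, h2⟩
    refine ⟨fun k => ?_, ?_⟩
    · rw [rowG_smul, h1, mul_zero]
    · rw [Pi.smul_apply, h2, smul_zero]

theorem add_self2 (a : ZMod 2) : a + a = 0 := by
  rw [← two_mul, two_eq, zero_mul]

theorem cases2 (a : ZMod 2) : a = 0 ∨ a = 1 := by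
  revert a; decide

theorem gd_iff {one : U → ZMod 2} {N : U ⊕ J → U ⊕ J → ZMod 2} {R : J → J → ZMod 2}
    (hr : ∀ k, ∑ l, N k l * onev one l = 0) (k0 : J) :
    GdG one N R ↔ Module.finrank (ZMod 2) (Kr N R k0) = 0 := by
  rw [Submodule.finrank_eq_zero, Submodule.eq_bot_iff]
  constructor
  · rintro h x ⟨h1, h2⟩
    rcases h x h1 with h3 | h3
    · exact h3
    · exfalso
      rw [h3] at h2
      change (1 : ZMod 2) = 0 at h2
      exact one_ne_zero h2
  · intro h x hx
    have h1 : x + x (Sum.inr k0) • onev one ∈ Kr N R k0 := by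
      refine ⟨fun k => ?_, ?_⟩
      · rw [rowG_add, rowG_smul, hx, rowG_onev hr, mul_zero, add_zero]
      · rw [Pi.add_apply, Pi.smul_apply]
        change x (Sum.inr k0) + x (Sum.inr k0) * 1 = 0
        rw [mul_one, add_self2]
    have h2 := h _ h1
    rcases cases2 (x (Sum.inr k0)) with h3 | h3
    · left
      rw [h3, zero_smul, add_zero] at h2
      exact h2
    · right
      rw [h3, one_smul] at h2
      have h4 : x = x + onev one + onev one := by
        rw [add_assoc]
        have : onev (J := J) one + onev one = 0 := by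
          funext k
          exact add_self2 _
        rw [this, add_zero]
      rw [h4, h2, zero_add]

/-- linear independence in the kernel -/
theorem li_iff {N : U ⊕ J → U ⊕ J → ZMod 2} {R : J → J → ZMod 2} {k0 : J}
    (hc : ∀ c : U → ZMod 2, c ≠ 0 → ∃ k : J, ∑ u, N (Sum.inr k) (Sum.inl u) * c u ≠ 0) {m : ℕ}
    (s : Fin m → Kr N R k0) :
    LinearIndependent (ZMod 2) s ↔ IndJ (fun i k => (s i).1 (Sum.inr k)) := by
  rw [Fintype.linearIndependent_iff]
  have hsum2 : ∀ (a : Fin m → ZMod 2) (k : U ⊕ J),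
      (((∑ i, a i • s i : Kr N R k0) : U ⊕ J → ZMod 2) k) = ∑ i, a i * (s i).1 k := by
    intro a k
    rw [Submodule.coe_sum, Finset.sum_apply]
    rfl
  constructor
  · intro h a ⟨i0, hi0⟩
    by_contra hcon
    push Not at hcon
    apply hi0
    refine h a ?_ i0
    obtain ⟨y, hy⟩ : ∃ y, y = ∑ i, a i • s i := ⟨_, rfl⟩
    rw [← hy]
    have hyk : ∀ k, y.1 k = ∑ i, a i * (s i).1 k := by
      intro k; rw [hy]; exact hsum2 a k
    have hy0 := y.2.2
    have hconst : ∀ l, y.1 (Sum.inr l) = 0 := by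
      intro l
      have h1 := hcon l k0
      simp_rw [mul_add] at h1
      rw [Finset.sum_add_distrib, ← hyk, ← hyk, hy0, add_zero] at h1
      exact h1
    have hU : (fun u => y.1 (Sum.inl u)) = 0 := by
      by_contra hne
      obtain ⟨k, hk⟩ := hc _ hne
      apply hk
      have h5 : rowG N R y.1 (Sum.inr k) = 0 := y.2.1 (Sum.inr k)
      simp only [rowG] at h5
      rw [Fintype.sum_sum_type] at h5
      have h6 : ∑ l, R k l * (y.1 (Sum.inr k) + y.1 (Sum.inr l)) = 0 := by
        apply Finset.sum_eq_zero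
        intro l _
        rw [hconst, hconst, add_zero, mul_zero]
      have h7 : ∑ l, N (Sum.inr k) (Sum.inr l) * y.1 (Sum.inr l) = 0 := by
        apply Finset.sum_eq_zero
        intro l _
        rw [hconst, mul_zero]
      rw [h6, h7, add_zero, add_zero] at h5
      exact h5
    apply Subtype.ext
    funext k
    cases k with
    | inl u => exact congrFun hU u
    | inr k => exact hconst k
  · intro h a ha
    by_contra hcon
    push Not at hcon
    obtain ⟨k, l, hkl⟩ := h a hcon
    apply hkl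
    simp_rw [mul_add]
    rw [Finset.sum_add_distrib, ← hsum2 a (Sum.inr k), ← hsum2 a (Sum.inr l), ha]
    change (0 : ZMod 2) + 0 = 0
    rw [add_zero]

theorem indJ_add {m : ℕ} (d : Fin m → J → ZMod 2) (e : Fin m → ZMod 2) (h : IndJ d) :
    IndJ (fun i k => d i k + e i) := by
  intro a ha
  obtain ⟨k, l, hkl⟩ := h a ha
  refine ⟨k, l, ?_⟩
  have h1 : ∑ i, a i * (d i k + e i + (d i l + e i)) = ∑ i, a i * (d i k + d i l) := by
    refine Finset.sum_congr rfl fun i _ => ?_
    have h2 : d i k + e i + (d i l + e i) = d i k + d i l + (e i + e i) := by ring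
    rw [h2, add_self2, add_zero]
  rw [h1]
  exact hkl

/-- the number of the tuples in the kernel, independent modulo the constants -/
theorem count {one : U → ZMod 2} {N : U ⊕ J → U ⊕ J → ZMod 2} {R : J → J → ZMod 2}
    (hr : ∀ k, ∑ l, N k l * onev one l = 0) (k0 : J)
    (hc : ∀ c : U → ZMod 2, c ≠ 0 → ∃ k : J, ∑ u, N (Sum.inr k) (Sum.inl u) * c u ≠ 0) (m : ℕ) :
    (2 : ℝ) ^ m * ∏ i ∈ range m, ((2 : ℝ) ^ Module.finrank (ZMod 2) (Kr N R k0) - 2 ^ i) =
      (Nat.card {x : Fin m → U ⊕ J → ZMod 2 //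
        IndJ (fun i k => x i (Sum.inr k)) ∧ ∀ i k, rowG N R (x i) k = 0} : ℝ) := by
  rw [← Pool.Agent.R426.QK.LA3.card_li]
  have h2m : (2 : ℝ) ^ m = (Nat.card (Fin m → ZMod 2) : ℝ) := by
    rw [Nat.card_eq_fintype_card, Fintype.card_fun, ZMod.card, Fintype.card_fin]
    push_cast
    rfl
  rw [h2m, ← Nat.cast_mul, ← Nat.card_prod]
  congr 1
  have hadd : ∀ (x : U ⊕ J → ZMod 2) (e : ZMod 2), (∀ k, rowG N R x k = 0) →
      ∀ k, rowG N R (x + e • onev one) k = 0 := by
    intro x e hx k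
    rw [rowG_add, rowG_smul, hx, rowG_onev hr, mul_zero, add_zero]
  have hee : ∀ (x : U ⊕ J → ZMod 2) (e : ZMod 2), x + e • onev one + e • onev one = x := by
    intro x e
    rw [add_assoc]
    have : e • onev (J := J) one + e • onev one = 0 := by
      funext k
      exact add_self2 _
    rw [this, add_zero]
  have hk0 : ∀ (x : U ⊕ J → ZMod 2) (e : ZMod 2),
      (x + e • onev one : U ⊕ J → ZMod 2) (Sum.inr k0) = x (Sum.inr k0) + e := by
    intro x e
    change x (Sum.inr k0) + e * 1 = x (Sum.inr k0) + e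
    rw [mul_one]
  apply Nat.card_congr
  refine
    { toFun := fun p => ⟨fun i => (p.2.1 i).1 + p.1 i • onev one, ?_, ?_⟩
      invFun := fun x => (fun i => x.1 i (Sum.inr k0),
        ⟨fun i => ⟨x.1 i + x.1 i (Sum.inr k0) • onev one, ?_, ?_⟩, ?_⟩)
      left_inv := ?_
      right_inv := ?_ }
  · have h1 := (li_iff hc p.2.1).1 p.2.2
    have h2 := indJ_add _ p.1 h1
    have h3 : (fun (i : Fin m) (k : J) => ((p.2.1 i).1 + p.1 i • onev one : U ⊕ J → ZMod 2)
        (Sum.inr k)) = fun i k => (p.2.1 i).1 (Sum.inr k) + p.1 i := by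
      funext i k
      change (p.2.1 i).1 (Sum.inr k) + p.1 i * 1 = _
      rw [mul_one]
    rw [h3]
    exact h2
  · intro i
    exact hadd _ _ (p.2.1 i).2.1
  · exact hadd _ _ (x.2.2 i)
  · rw [hk0, add_self2]
  · rw [li_iff hc]
    have h2 := indJ_add _ (fun i => x.1 i (Sum.inr k0)) x.2.1
    have h3 : (fun (i : Fin m) (k : J) => (x.1 i + x.1 i (Sum.inr k0) • onev one : U ⊕ J → ZMod 2)
        (Sum.inr k)) = fun i k => x.1 i (Sum.inr k) + x.1 i (Sum.inr k0) := by
      funext i k
      change x.1 i (Sum.inr k) + x.1 i (Sum.inr k0) * 1 = _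
      rw [mul_one]
    rw [h3]
    exact h2
  · rintro ⟨e, s, hs⟩
    have h1 : ∀ i, ((s i).1 + e i • onev one : U ⊕ J → ZMod 2) (Sum.inr k0) = e i := by
      intro i
      rw [hk0, (s i).2.2, zero_add]
    apply Prod.ext
    · funext i
      exact h1 i
    · apply Subtype.ext
      funext i
      apply Subtype.ext
      change (s i).1 + e i • onev one +
        ((s i).1 + e i • onev one : U ⊕ J → ZMod 2) (Sum.inr k0) • onev one = (s i).1
      rw [h1, hee]
  · rintro ⟨x, hx⟩
    apply Subtype.ext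
    funext i
    change x i + x i (Sum.inr k0) • onev one + x i (Sum.inr k0) • onev one = x i
    rw [hee]

theorem cond1 {one : U → ZMod 2} {N : U ⊕ J → U ⊕ J → ZMod 2} {t : J → ZMod 2}
    (hU : ∀ u : U, ∑ k, onev one k * N k (Sum.inl u) = 0)
    (hJ : ∀ l : J, ∑ k, onev one k * N k (Sum.inr l) = t l * (∑ j, t j + 1))
    (x : U ⊕ J → ZMod 2) (hx : ∀ u, ∑ l, N (Sum.inl u) l * x l = 0) :
    ∑ k, ∑ l, N (Sum.inr k) l * x l = ∑ l, t l * (∑ j, t j + 1) * x (Sum.inr l) := by
  have h1 : ∑ k, onev one k * ∑ l, N k l * x l = ∑ k, ∑ l, N (Sum.inr k) l * x l := by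
    rw [Fintype.sum_sum_type]
    have h2 : ∑ u : U, onev (J := J) one (Sum.inl u) * ∑ l, N (Sum.inl u) l * x l = 0 := by
      apply Finset.sum_eq_zero
      intro u _
      rw [hx, mul_zero]
    rw [h2, zero_add]
    apply Finset.sum_congr rfl
    intro k _
    change (1 : ZMod 2) * _ = _
    rw [one_mul]
  rw [← h1]
  have h3 : ∑ k, onev one k * ∑ l, N k l * x l = ∑ l, (∑ k, onev one k * N k l) * x l := by
    simp_rw [Finset.mul_sum, Finset.sum_mul]
    rw [Finset.sum_comm]
    exact Finset.sum_congr rfl fun l _ => Finset.sum_congr rfl fun k _ => by ring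
  rw [h3, Fintype.sum_sum_type]
  have h4 : ∑ u : U, (∑ k, onev one k * N k (Sum.inl u)) * x (Sum.inl u) = 0 := by
    apply Finset.sum_eq_zero
    intro u _
    rw [hU, zero_mul]
  rw [h4, zero_add]
  exact Finset.sum_congr rfl fun l _ => by rw [hJ]

theorem cond2 {N : U ⊕ J → U ⊕ J → ZMod 2} {t : J → ZMod 2}
    (x y : U ⊕ J → ZMod 2) (hx : ∀ u, ∑ l, N (Sum.inl u) l * x l = 0)
    (hy : ∀ u, ∑ l, N (Sum.inl u) l * y l = 0) :
    (∑ k, (y (Sum.inr k) * (∑ l, N (Sum.inr k) l * x l) +
        x (Sum.inr k) * (∑ l, N (Sum.inr k) l * y l)) =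
      (∑ k, t k * x (Sum.inr k)) * (∑ k, t k * y (Sum.inr k)) +
        ∑ k, t k * (x (Sum.inr k) * y (Sum.inr k))) ↔ PP N t x y = 0 := by
  have h1 : ∑ k, ∑ l, (N k l + N l k) * (x k * y l) =
      ∑ k, (y (Sum.inr k) * (∑ l, N (Sum.inr k) l * x l) +
        x (Sum.inr k) * (∑ l, N (Sum.inr k) l * y l)) := by
    have h2 : ∑ k, (y k * (∑ l, N k l * x l) + x k * (∑ l, N k l * y l)) =
        ∑ k, (y (Sum.inr k) * (∑ l, N (Sum.inr k) l * x l) +
        x (Sum.inr k) * (∑ l, N (Sum.inr k) l * y l)) := by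
      rw [Fintype.sum_sum_type]
      have h3 : ∑ u : U, (y (Sum.inl u) * (∑ l, N (Sum.inl u) l * x l) +
          x (Sum.inl u) * (∑ l, N (Sum.inl u) l * y l)) = 0 := by
        apply Finset.sum_eq_zero
        intro u _
        rw [hx, hy, mul_zero, mul_zero, add_zero]
      rw [h3, zero_add]
    rw [← h2, Finset.sum_add_distrib]
    simp_rw [add_mul, Finset.sum_add_distrib, Finset.mul_sum]
    rw [add_comm]
    congr 1
    · rw [Finset.sum_comm]
      exact Finset.sum_congr rfl fun l _ => Finset.sum_congr rfl fun k _ => by ring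
    · exact Finset.sum_congr rfl fun l _ => Finset.sum_congr rfl fun k _ => by ring
  unfold PP
  rw [h1]
  constructor
  · intro h
    rw [h, add_self2]
  · intro h
    have := eq_neg_of_add_eq_zero_left h
    rw [this, ZMod.neg_eq_self_mod_two]

end

theorem t_LA3 : Pool.Agent.N848.AW.S_LA3 := by
  intro hMOM hLA1 hLA2 ε hε
  obtain ⟨M, δ, hδ, hM⟩ := hMOM ε hε
  choose! Vf hVf using fun m => hLA2 m δ hδ
  refine ⟨(range (M + 1)).sup Vf + 2, ?_⟩
  intro U J _ _ _ one N t a b hV hyp
  have hJ : ∃ k0 : J, True := by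
    have : 0 < (univ.filter fun j => t j = 1).card := by omega
    obtain ⟨k0, _⟩ := Finset.card_pos.1 this
    exact ⟨k0, trivial⟩
  obtain ⟨k0, -⟩ := hJ
  have hcJ : 1 ≤ Fintype.card J := Fintype.card_pos_iff.2 ⟨k0⟩
  have hcardΩ : (Fintype.card (prs J → ZMod 2) : ℝ) = 2 ^ (prs J).card := by
    rw [Fintype.card_fun, ZMod.card, Fintype.card_coe]
    push_cast
    rfl
  have key := hM (prs J → ZMod 2)
    (fun α => Module.finrank (ZMod 2) (Kr N (ext t α) k0)) ?_
  · rw [hcardΩ] at key
    have h1 : (univ.filter fun α : prs J → ZMod 2 => GdG one N (ext t α)) =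
        univ.filter fun α : prs J → ZMod 2 =>
          Module.finrank (ZMod 2) (Kr N (ext t α) k0) = 0 :=
      Finset.filter_congr fun α _ => gd_iff hyp.right k0
    rw [h1]
    exact key
  · intro m hm
    -- the tuples
    obtain ⟨T, hT⟩ : ∃ T : Finset (Fin m → U ⊕ J → ZMod 2),
      T = univ.filter fun x => IndJ (fun i k => x i (Sum.inr k)) ∧
        ∀ i u, ∑ l, N (Sum.inl u) l * x i l = 0 := ⟨_, rfl⟩
    have hTm : ∀ x, x ∈ T ↔ IndJ (fun i k => x i (Sum.inr k)) ∧
        ∀ i u, ∑ l, N (Sum.inl u) l * x i l = 0 := by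
      intro x
      rw [hT, Finset.mem_filter]
      exact ⟨fun h => h.2, fun h => ⟨Finset.mem_univ _, h⟩⟩
    have hcount : ∀ α : prs J → ZMod 2, (2 : ℝ) ^ m *
        ∏ i ∈ range m, ((2 : ℝ) ^ Module.finrank (ZMod 2) (Kr N (ext t α) k0) - 2 ^ i) =
        ((T.filter fun x => ∀ i k, rowG N (ext t α) (x i) (Sum.inr k) = 0).card : ℝ) := by
      intro α
      rw [count hyp.right k0 hyp.cols m]
      congr 1
      rw [← Fintype.card_coe, ← Nat.card_eq_fintype_card]
      apply Nat.card_congr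
      apply Equiv.subtypeEquivRight
      intro x
      rw [Finset.mem_filter, hTm]
      constructor
      · rintro ⟨h1, h2⟩
        exact ⟨⟨h1, fun i u => h2 i (Sum.inl u)⟩, fun i k => h2 i (Sum.inr k)⟩
      · rintro ⟨⟨h1, h2⟩, h3⟩
        refine ⟨h1, fun i k => ?_⟩
        cases k with
        | inl u => exact h2 i u
        | inr k => exact h3 i k
    have hsum : (2 : ℝ) ^ m * ∑ α : prs J → ZMod 2,
        ∏ i ∈ range m, ((2 : ℝ) ^ Module.finrank (ZMod 2) (Kr N (ext t α) k0) - 2 ^ i) =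
        ((∑ α : prs J → ZMod 2,
          (T.filter fun x => ∀ i k, rowG N (ext t α) (x i) (Sum.inr k) = 0).card : ℕ) : ℝ) := by
      rw [Finset.mul_sum, Nat.cast_sum]
      exact Finset.sum_congr rfl fun α _ => hcount α
    have hswap : ∑ α : prs J → ZMod 2,
        (T.filter fun x => ∀ i k, rowG N (ext t α) (x i) (Sum.inr k) = 0).card =
        ∑ x ∈ T, (univ.filter fun α : prs J → ZMod 2 =>
          ∀ i k, rowG N (ext t α) (x i) (Sum.inr k) = 0).card := by
      have := Finset.sum_card_bipartiteAbove_eq_sum_card_bipartiteBelow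
        (s := (univ : Finset (prs J → ZMod 2))) (t := T)
        (fun α x => ∀ i k, rowG N (ext t α) (x i) (Sum.inr k) = 0)
      exact this
    rw [hswap] at hsum
    have hmul : (∑ x ∈ T, (univ.filter fun α : prs J → ZMod 2 =>
          ∀ i k, rowG N (ext t α) (x i) (Sum.inr k) = 0).card) *
          2 ^ (m * (Fintype.card J - 1)) =
        (univ.filter fun x : Fin m → U ⊕ J → ZMod 2 =>
          IndJ (fun i k => x i (Sum.inr k)) ∧ OKg N t x).card *
            2 ^ ((prs J).card + m.choose 2) := by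
      rw [Finset.sum_mul]
      have h1 : ∀ x ∈ T, (univ.filter fun α : prs J → ZMod 2 =>
          ∀ i k, rowG N (ext t α) (x i) (Sum.inr k) = 0).card *
          2 ^ (m * (Fintype.card J - 1)) =
          if OKg N t x then 2 ^ ((prs J).card + m.choose 2) else 0 := by
        intro x hx
        rw [hTm] at hx
        have h2 := hLA1 J t m (fun i k => x i (Sum.inr k))
          (fun i k => ∑ l, N (Sum.inr k) l * x i l) hx.1
        have h3 : (univ.filter fun α : prs J → ZMod 2 =>
            ∀ i k, rowG N (ext t α) (x i) (Sum.inr k) = 0) =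
            (univ.filter fun α : prs J → ZMod 2 => ∀ i k,
              ∑ l, ext t α k l * (x i (Sum.inr k) + x i (Sum.inr l)) =
                ∑ l, N (Sum.inr k) l * x i l) := by
          apply Finset.filter_congr
          intro α _
          apply forall_congr'; intro i
          apply forall_congr'; intro k
          simp only [rowG]
          constructor
          · intro h
            have := eq_neg_of_add_eq_zero_left h
            rw [this, ZMod.neg_eq_self_mod_two]
          · intro h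
            rw [h, add_self2]
        rw [h3, h2]
        have h4 : ((∀ i, ∑ k, ∑ l, N (Sum.inr k) l * x i l =
              ∑ l, t l * (∑ j, t j + 1) * x i (Sum.inr l)) ∧
            (∀ i j, ∑ k, (x j (Sum.inr k) * (∑ l, N (Sum.inr k) l * x i l) +
                x i (Sum.inr k) * (∑ l, N (Sum.inr k) l * x j l)) =
              (∑ k, t k * x i (Sum.inr k)) * (∑ k, t k * x j (Sum.inr k)) +
                ∑ k, t k * (x i (Sum.inr k) * x j (Sum.inr k)))) ↔ OKg N t x := by
          constructor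
          · rintro ⟨_, h5⟩
            exact ⟨hx.2, fun i j => (cond2 (x i) (x j) (hx.2 i) (hx.2 j)).1 (h5 i j)⟩
          · rintro ⟨_, h5⟩
            exact ⟨fun i => cond1 hyp.leftU hyp.leftJ (x i) (hx.2 i),
              fun i j => (cond2 (x i) (x j) (hx.2 i) (hx.2 j)).2 (h5 i j)⟩
        by_cases h5 : OKg N t x
        · rw [if_pos h5, if_pos (h4.2 h5)]
        · rw [if_neg h5, if_neg fun h => h5 (h4.1 h)]
      rw [Finset.sum_congr rfl h1, ← Finset.sum_filter, Finset.sum_const, smul_eq_mul]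
      congr 2
      rw [hT, Finset.filter_filter]
      apply Finset.filter_congr
      intro x _
      constructor
      · rintro ⟨⟨h2, _⟩, h3⟩; exact ⟨h2, h3⟩
      · rintro ⟨h2, h3⟩; exact ⟨⟨h2, h3.1⟩, h3⟩
    have hVm : 4 * Fintype.card U + Vf m ≤ (univ.filter fun j => t j = 1).card := by
      have : Vf m ≤ (range (M + 1)).sup Vf :=
        Finset.le_sup (f := Vf) (Finset.mem_range.2 (by omega))
      omega
    have hfin := hVf m U J one N t a b hVm hyp
    obtain ⟨N1, hN1⟩ : ∃ N1 : ℕ, N1 = ∑ x ∈ T, (univ.filter fun α : prs J → ZMod 2 =>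
          ∀ i k, rowG N (ext t α) (x i) (Sum.inr k) = 0).card := ⟨_, rfl⟩
    obtain ⟨N2, hN2⟩ : ∃ N2 : ℕ, N2 =
        (univ.filter fun x : Fin m → U ⊕ J → ZMod 2 =>
          IndJ (fun i k => x i (Sum.inr k)) ∧ OKg N t x).card := ⟨_, rfl⟩
    rw [← hN1, ← hN2] at hmul
    rw [← hN1] at hsum
    have hfin2 : |(N2 : ℝ) * 2 ^ m.choose 2 / 2 ^ (m * Fintype.card J) - 1| ≤ δ := by
      generalize hN3 : Finset.card _ = N3 at hfin
      have hN4 : N2 = N3 := by
        rw [hN2, ← hN3]
        exact Pool.Agent.R426.QK.LA3.card_univ_inst _ _ _ _ _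
      rw [hN4]
      exact hfin
    rw [hcardΩ]
    obtain ⟨P, hP⟩ : ∃ P : ℕ, P = (prs J).card := ⟨_, rfl⟩
    rw [← hP] at hmul ⊢
    obtain ⟨S1, hS1⟩ : ∃ S1 : ℝ, S1 = ∑ α : prs J → ZMod 2,
        ∏ i ∈ range m, ((2 : ℝ) ^ Module.finrank (ZMod 2) (Kr N (ext t α) k0) - 2 ^ i) := ⟨_, rfl⟩
    rw [← hS1] at hsum ⊢
    have hval : S1 / 2 ^ P = (N2 : ℝ) * 2 ^ m.choose 2 / 2 ^ (m * Fintype.card J) := by
      rw [div_eq_div_iff (by positivity) (by positivity)]
      have h2 : (N1 : ℝ) * 2 ^ (m * (Fintype.card J - 1)) = (N2 : ℝ) * 2 ^ (P + m.choose 2) := by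
        exact_mod_cast hmul
      have h3 : m * Fintype.card J = m + m * (Fintype.card J - 1) := by
        obtain ⟨c, hc⟩ : ∃ c, Fintype.card J = c + 1 := ⟨Fintype.card J - 1, by omega⟩
        rw [hc, Nat.add_sub_cancel]
        ring
      rw [h3, pow_add]
      calc S1 * (2 ^ m * 2 ^ (m * (Fintype.card J - 1)))
          = (2 ^ m * S1) * 2 ^ (m * (Fintype.card J - 1)) := by ring
        _ = (N1 : ℝ) * 2 ^ (m * (Fintype.card J - 1)) := by rw [hsum]
        _ = (N2 : ℝ) * 2 ^ (P + m.choose 2) := h2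
        _ = _ := by rw [pow_add]; ring
    rw [hval]
    exact hfin2

end Pool.Agent.N279.AW.LA3
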